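import Pool.Agent.N167.DY.Stm

set_option autoImplicit false

/-!
# Uniqueness among all solutions with nonnegative data (task DY/7 of `Pool.Agent.N167.DY.Stm`)
-/

namespace Pool.Agent.N455.DY

open Set Filter Topology
open Pool.Agent.N167.DY

lemma kk_pos (β : ℝ) (n : ℕ) : 0 < kk β n := Real.rpow_pos_of_pos (by norm_num) _

lemma inflow_nonneg (β : ℝ) (X : ℕ → ℝ) (n : ℕ) : 0 ≤ inflow β X n := by
  cases n with
  | zero => exact le_rfl
  | succ n => exact mul_nonneg (kk_pos β n).le (sq_nonneg _)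

section
variable {β ν : ℝ} {f : ℕ → ℝ → ℝ} {x : ℕ → ℝ} {Z : ℕ → ℝ → ℝ}

lemma cont_sol (hZ : IsSol β ν f x Z) (n : ℕ) : ContinuousOn (Z n) (Ici 0) :=
  fun t ht => (hZ.2 n t ht).continuousWithinAt

lemma deriv_right (hZ : IsSol β ν f x Z) (n : ℕ) {t : ℝ} (ht : 0 ≤ t) :
    HasDerivWithinAt (Z n) (rhs β ν (fun m => f m t) (fun m => Z m t) n) (Ici t) t :=
  (hZ.2 n t ht).mono (Ici_subset_Ici.2 ht)

/-- positivity -/
lemma pos_sol (hZ : IsSol β ν f x Z) (hx : ∀ n, 0 ≤ x n)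
    (hf : ∀ n, ∀ t, 0 ≤ t → 0 ≤ f n t) (n : ℕ) {T : ℝ} (hT : 0 ≤ T) : 0 ≤ Z n T := by
  -- bound of the coefficient
  have hc : ContinuousOn (fun t => ν * 4 ^ n + kk β n * Z (n + 1) t) (Icc 0 T) :=
    (continuousOn_const.add (continuousOn_const.mul (cont_sol hZ (n + 1)))).mono Icc_subset_Ici_self
  obtain ⟨M, hM⟩ := isCompact_Icc.exists_bound_of_continuousOn hc
  have hM0 : 0 ≤ M := (norm_nonneg _).trans (hM 0 ⟨le_rfl, hT⟩)
  have key : ∀ e : ℝ, 0 < e → -Z n T ≤ e * Real.exp ((M + 1) * T) := by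
    intro e he
    have h1 := image_le_of_deriv_right_lt_deriv_boundary' (f := fun t => -Z n t)
      (f' := fun t => -rhs β ν (fun m => f m t) (fun m => Z m t) n) (a := 0) (b := T)
      ((cont_sol hZ n).mono Icc_subset_Ici_self).neg
      (fun t ht => (deriv_right hZ n ht.1).neg)
      (B := fun t => e * Real.exp ((M + 1) * t))
      (B' := fun t => e * (Real.exp ((M + 1) * t) * (M + 1))) (by
        rw [hZ.1 n, mul_zero, Real.exp_zero]
        linarith [hx n])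
      (by fun_prop)
      (fun t _ => by
        have h2 : HasDerivAt (fun t : ℝ => (M + 1) * t) (M + 1) t := by
          simpa using (hasDerivAt_id t).const_mul (M + 1)
        exact (h2.exp.const_mul e).hasDerivWithinAt)
      (fun t ht heq => by
        have h3 := hM t ⟨ht.1, ht.2.le⟩
        rw [Real.norm_eq_abs, abs_le] at h3
        have h4 := inflow_nonneg β (fun m => Z m t) n
        have h5 := hf n t ht.1
        have h6 : 0 < e * Real.exp ((M + 1) * t) := by positivity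
        have h7 : Z n t = -(e * Real.exp ((M + 1) * t)) := by linarith
        unfold rhs
        simp only
        nlinarith [mul_le_mul_of_nonneg_right h3.2 h6.le]) (right_mem_Icc.2 hT)
    exact h1
  have hE := Real.exp_pos ((M + 1) * T)
  by_contra hneg
  push Not at hneg
  have h1 := key (-Z n T / (2 * Real.exp ((M + 1) * T))) (by
    apply div_pos (by linarith) (by positivity))
  have h2 : -Z n T / (2 * Real.exp ((M + 1) * T)) * Real.exp ((M + 1) * T) = -Z n T / 2 := by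
    field_simp
  rw [h2] at h1
  linarith

/-- telescoping -/
lemma tele (g z : ℕ → ℝ) (N : ℕ) : ∑ n ∈ Finset.range (N + 1), z n * rhs β ν g z n =
    ∑ n ∈ Finset.range (N + 1), (z n * g n - ν * 4 ^ n * z n ^ 2) -
      kk β N * z N ^ 2 * z (N + 1) := by
  induction N with
  | zero =>
    simp only [zero_add, Finset.sum_range_one]
    unfold rhs inflow
    ring
  | succ N ih =>
    rw [Finset.sum_range_succ, ih, Finset.sum_range_succ _ (N + 1)]
    unfold rhs inflow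
    ring

/-- energy bound -/
lemma energy (hν : 0 < ν) (hZ : IsSol β ν f x Z) (hx : ∀ n, 0 ≤ x n) {F : ℕ → ℝ}
    (hf : ∀ n, ∀ t, 0 ≤ t → 0 ≤ f n t ∧ f n t ≤ F n) {P S : ℝ} (hS0 : 0 ≤ S)
    (hP0 : 0 ≤ P) (N : ℕ) (hP : ∑ n ∈ Finset.range (N + 1), x n ^ 2 ≤ P)
    (hS : ∑ n ∈ Finset.range (N + 1), F n ^ 2 ≤ S) {T : ℝ} (hT : 0 ≤ T) :
    ∑ n ∈ Finset.range (N + 1), Z n T ^ 2 ≤ (P + S + 1) * Real.exp (2 * T) := by
  have hpos : ∀ n t, 0 ≤ t → 0 ≤ Z n t := fun n t ht => pos_sol hZ hx (fun n t ht => (hf n t ht).1) n ht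
  have h1 := image_le_of_deriv_right_lt_deriv_boundary'
    (f := fun t => ∑ n ∈ Finset.range (N + 1), Z n t ^ 2)
    (f' := fun t => ∑ n ∈ Finset.range (N + 1),
      2 * (Z n t * rhs β ν (fun m => f m t) (fun m => Z m t) n)) (a := 0) (b := T)
    (continuousOn_finsetSum _ fun n _ => ((cont_sol hZ n).mono Icc_subset_Ici_self).pow 2)
    (fun t ht => by
      apply HasDerivWithinAt.fun_sum
      intro n _
      have h2 := (deriv_right hZ n ht.1).fun_pow 2
      refine h2.congr_deriv ?_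
      push_cast
      ring)
    (B := fun t => (P + S + 1) * Real.exp (2 * t))
    (B' := fun t => (P + S + 1) * (Real.exp (2 * t) * 2)) (by
      rw [mul_zero, Real.exp_zero, mul_one]
      have : ∑ n ∈ Finset.range (N + 1), Z n 0 ^ 2 = ∑ n ∈ Finset.range (N + 1), x n ^ 2 :=
        Finset.sum_congr rfl fun n _ => by rw [hZ.1 n]
      rw [this]
      linarith)
    (by fun_prop)
    (fun t _ => by
      have h2 : HasDerivAt (fun t : ℝ => 2 * t) 2 t := by
        simpa using (hasDerivAt_id t).const_mul 2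
      exact (h2.exp.const_mul (P + S + 1)).hasDerivWithinAt)
    (fun t ht heq => by
      rw [← Finset.mul_sum, tele (β := β) (ν := ν) (fun m => f m t) (fun m => Z m t) N]
      have h3 : ∑ n ∈ Finset.range (N + 1), (Z n t * f n t - ν * 4 ^ n * Z n t ^ 2) ≤
          ∑ n ∈ Finset.range (N + 1), (F n ^ 2 / 2 + Z n t ^ 2 / 2) := by
        refine Finset.sum_le_sum fun n _ => ?_
        have a1 := hf n t ht.1
        have a2 : 0 ≤ ν * 4 ^ n * Z n t ^ 2 := by positivity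
        have a3 : f n t ^ 2 ≤ F n ^ 2 := pow_le_pow_left₀ a1.1 a1.2 2
        nlinarith [sq_nonneg (Z n t - f n t)]
      rw [Finset.sum_add_distrib, ← Finset.sum_div, ← Finset.sum_div] at h3
      have h4 : 0 ≤ kk β N * Z N t ^ 2 * Z (N + 1) t :=
        mul_nonneg (mul_nonneg (kk_pos β N).le (sq_nonneg _)) (hpos (N + 1) t ht.1)
      have h5 : 1 ≤ Real.exp (2 * t) := Real.one_le_exp (by linarith [ht.1])
      have h6 : P + S + 1 ≤ (P + S + 1) * Real.exp (2 * t) :=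
        le_mul_of_one_le_right (by linarith) h5
      rw [heq] at h3
      linarith) (right_mem_Icc.2 hT)
  exact h1

end

lemma rapid_sq {a : ℕ → ℝ} (ha : Rapid a) (h0 : ∀ n, 0 ≤ a n) :
    ∃ S : ℝ, 0 ≤ S ∧ ∀ N : ℕ, ∑ n ∈ Finset.range N, a n ^ 2 ≤ S := by
  obtain ⟨C, hC⟩ := ha 1
  have h1 : ∀ n, a n ≤ C * (1 / 2 : ℝ) ^ n := by
    intro n
    have h2 := hC n
    rw [one_mul, Real.rpow_natCast] at h2
    rw [one_div, inv_pow, ← div_eq_mul_inv, le_div_iff₀ (by positivity)]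
    linarith
  have h3 : Summable (fun n : ℕ => C ^ 2 * (1 / 4 : ℝ) ^ n) :=
    (summable_geometric_of_lt_one (by norm_num) (by norm_num)).mul_left _
  refine ⟨∑' n : ℕ, C ^ 2 * (1 / 4 : ℝ) ^ n, tsum_nonneg fun n => by positivity, fun N => ?_⟩
  refine le_trans (Finset.sum_le_sum fun n _ => ?_) (h3.sum_le_tsum (Finset.range N)
    fun n _ => by positivity)
  calc a n ^ 2 ≤ (C * (1 / 2 : ℝ) ^ n) ^ 2 := pow_le_pow_left₀ (h0 n) (h1 n) 2
    _ = C ^ 2 * (1 / 4 : ℝ) ^ n := by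
      rw [mul_pow, ← pow_mul, mul_comm n 2, pow_mul]
      norm_num

theorem unique : S_unique := by
  intro hψ β ν f x a F X Z hν hx hrx hrF hfc hf hra hX hXb hZ n₀ t₀ ht₀
  have hF0 : ∀ n, 0 ≤ F n := fun n => (hf n 0 le_rfl).1.trans (hf n 0 le_rfl).2
  have ha0 : ∀ n, 0 ≤ a n := fun n => (hXb n 0 le_rfl).1.trans (hXb n 0 le_rfl).2
  obtain ⟨P, hP0, hP⟩ := rapid_sq hrx hx
  obtain ⟨S, hS0, hS⟩ := rapid_sq hrF hF0
  set B : ℝ := (P + S + 1) * Real.exp (2 * t₀) with hB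
  have hB1 : 1 ≤ B := by
    have h1 : 1 ≤ Real.exp (2 * t₀) := Real.one_le_exp (by linarith)
    rw [hB]
    nlinarith
  have hZ0 : ∀ n t, 0 ≤ t → 0 ≤ Z n t := fun n t ht => pos_sol hZ hx (fun n t ht => (hf n t ht).1) n ht
  have hZB : ∀ n t, t ∈ Icc (0 : ℝ) t₀ → Z n t ≤ B := by
    intro n t ht
    have h1 := energy hν hZ hx hf hS0 hP0 n (hP (n + 1)) (hS (n + 1)) ht.1
    have h2 : Z n t ^ 2 ≤ ∑ m ∈ Finset.range (n + 1), Z m t ^ 2 :=
      Finset.single_le_sum (f := fun m => Z m t ^ 2) (fun m _ => sq_nonneg _)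
        (Finset.self_mem_range_succ n)
    have h3 : Real.exp (2 * t) ≤ Real.exp (2 * t₀) := Real.exp_le_exp.2 (by linarith [ht.2])
    have h4 : Z n t ^ 2 ≤ B := by
      refine h2.trans (h1.trans ?_)
      rw [hB]
      gcongr
    by_contra hcon
    push Not at hcon
    nlinarith
  obtain ⟨C, hC⟩ := hra β
  obtain ⟨C0, hC0⟩ := hra 0
  have hC' : ∀ N, kk β N * a N ≤ C := hC
  have hC0' : ∀ N, a N ≤ C0 := by
    intro N
    have := hC0 N
    rwa [zero_mul, Real.rpow_zero, one_mul] at this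
  have hCn : 0 ≤ C := (mul_nonneg (kk_pos β 0).le (ha0 0)).trans (hC' 0)
  have hC0n : 0 ≤ C0 := (ha0 0).trans (hC0' 0)
  set K : ℝ := C * B * (C0 + B) with hK
  have hsol : ∀ (Y : ℕ → ℝ → ℝ), IsSol β ν f x Y → ∀ N, SolUpTo β ν f N t₀ Y :=
    fun Y hY N n _ t ht => (hY.2 n t ht.1).mono Icc_subset_Ici_self
  have main : ∀ N, n₀ ≤ N → (2 : ℝ)⁻¹ ^ n₀ * (X n₀ t₀ - Z n₀ t₀) ^ 2 ≤
      2 * ((2 : ℝ)⁻¹ ^ N * K) * t₀ := by
    intro N hN
    have h1 := hψ β ν f N t₀ ((2 : ℝ)⁻¹ ^ N * K) X Z hν.le ht₀ (hsol X hX N) (hsol Z hZ N)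
      (fun n _ t ht => ⟨(hXb n t ht.1).1, hZ0 n t ht.1⟩)
      (fun n _ => by rw [hX.1 n, hZ.1 n]) (fun t ht => by
        have b1 := hXb N t ht.1
        have b2 := hXb (N + 1) t ht.1
        have b3 := hZ0 N t ht.1
        have b4 := hZ0 (N + 1) t ht.1
        have b5 := hZB N t ht
        have b6 := hZB (N + 1) t ht
        have b7 := hC0' (N + 1)
        have b8 := kk_pos β N
        have c1 : kk β N * X N t ≤ C := (mul_le_mul_of_nonneg_left b1.2 b8.le).trans (hC' N)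
        have c2 : kk β N * X N t * Z N t ≤ C * B := mul_le_mul c1 b5 b3 hCn
        have c3 : X (N + 1) t + Z (N + 1) t ≤ C0 + B := by linarith [b2.2]
        have c4 : kk β N * X N t * Z N t * (X (N + 1) t + Z (N + 1) t) ≤ K :=
          mul_le_mul c2 c3 (by linarith [b2.1]) (by positivity)
        calc (2 : ℝ)⁻¹ ^ N * kk β N * X N t * Z N t * (X (N + 1) t + Z (N + 1) t)
            = (2 : ℝ)⁻¹ ^ N * (kk β N * X N t * Z N t * (X (N + 1) t + Z (N + 1) t)) := by ring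
          _ ≤ (2 : ℝ)⁻¹ ^ N * K := by gcongr) t₀ (right_mem_Icc.2 ht₀)
    refine le_trans ?_ h1
    exact Finset.single_le_sum (f := fun n => (2 : ℝ)⁻¹ ^ n * (X n t₀ - Z n t₀) ^ 2)
      (fun m _ => by positivity) (Finset.mem_range.2 (by omega))
  have hlim : Tendsto (fun N : ℕ => 2 * ((2 : ℝ)⁻¹ ^ N * K) * t₀) atTop (𝓝 (2 * (0 * K) * t₀)) :=
    (((tendsto_pow_atTop_nhds_zero_of_lt_one (by norm_num) (by norm_num)).mul_const K).const_mul
      2).mul_const t₀
  rw [zero_mul, mul_zero, zero_mul] at hlim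
  have h2 := ge_of_tendsto hlim ((eventually_ge_atTop n₀).mono main)
  have h3 : (X n₀ t₀ - Z n₀ t₀) ^ 2 ≤ 0 := by
    have h4 : 0 < (2 : ℝ)⁻¹ ^ n₀ := by positivity
    by_contra hcon
    push Not at hcon
    have := mul_pos h4 hcon
    linarith
  have h5 : X n₀ t₀ - Z n₀ t₀ = 0 := pow_eq_zero_iff (two_ne_zero) |>.1 (le_antisymm h3 (sq_nonneg _))
  linarith

end Pool.Agent.N455.DY
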